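import Pool.Agent.W114.HL.Stm

/-!
# Project HL: no large exact prime divisor, with a rate (adapted from Pool.Agent.W475.PQ.E)
-/

set_option autoImplicit false

namespace Pool.Agent.W563.HL.E

open Finset Filter Topology
open Pool.Agent.H951R4.OD (ch PI Ex)
open Pool.Agent.W114.PQ (wX EP S_GS S_GD)

theorem ev_k (k : ℕ) : ∀ᶠ L : ℝ in atTop, (k : ℝ) * L ^ (3 / 4 : ℝ) ≤ L / 2 := by
  have h1 : Tendsto (fun L : ℝ => L ^ (1 / 4 : ℝ)) atTop atTop :=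
    tendsto_rpow_atTop (by norm_num)
  filter_upwards [h1.eventually_ge_atTop (2 * (k : ℝ)), eventually_gt_atTop 0] with L hL hL0
  have h2 : L = L ^ (1 / 4 : ℝ) * L ^ (3 / 4 : ℝ) := by
    rw [← Real.rpow_add hL0]; norm_num
  have h3 : 2 * (k : ℝ) * L ^ (3 / 4 : ℝ) ≤ L := by
    calc 2 * (k : ℝ) * L ^ (3 / 4 : ℝ) ≤ L ^ (1 / 4 : ℝ) * L ^ (3 / 4 : ℝ) :=
          mul_le_mul_of_nonneg_right hL (by positivity)
      _ = L := h2.symm
  linarith

theorem ev_p : ∀ᶠ L : ℝ in atTop, L ^ 8 * Real.exp (-(L / 2)) ≤ 1 := by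
  have h3 := Real.tendsto_pow_mul_exp_neg_atTop_nhds_zero 8
  have h4 : Tendsto (fun L : ℝ => L / 2) atTop atTop :=
    tendsto_id.atTop_div_const (by norm_num)
  have h5 := (h3.comp h4).const_mul ((2 : ℝ) ^ 8)
  rw [mul_zero] at h5
  filter_upwards [h5.eventually (eventually_le_nhds (show (0 : ℝ) < 1 by norm_num))] with L hL
  simp only [Function.comp_apply] at hL
  rw [div_pow] at hL
  calc L ^ 8 * Real.exp (-(L / 2)) = 2 ^ 8 * (L ^ 8 / 2 ^ 8 * Real.exp (-(L / 2))) := by ring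
    _ ≤ 1 := hL

theorem bound (gd : S_GD) (c0 : ℕ) (k : ℕ) (C : ℝ)
    (hC : ∀ (G : ℝ) (S : Finset ℕ), 1 ≤ G → (∀ g ∈ S, G ≤ (g : ℝ) ∧ ∀ p : ℕ, ¬ Ex c0 g p) →
      ∑ g ∈ S, (1 : ℝ) / g ≤ C * G ^ (-(1 / 3) : ℝ)) (X : ℕ) (hL1 : 1 ≤ Real.log (X : ℝ))
    (hX1 : 1 ≤ X) :
    ({n : ℕ | 1 ≤ n ∧ n ≤ X ∧ (EP c0 (wX X) n).card < k ∧
      ∀ r : ℕ, wX X < r → ¬ Ex c0 n r}.ncard : ℝ) ≤
      X * (C * (Real.log (X : ℝ) ^ 6) ^ (-(1 / 3) : ℝ)) +
        Real.log (X : ℝ) ^ 6 * Real.exp (k * Real.log (X : ℝ) ^ (3 / 4 : ℝ)) := by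
  classical
  set L : ℝ := Real.log (X : ℝ) with hL
  have hX0 : (0 : ℝ) < X := by exact_mod_cast hX1
  have hL0 : 0 < L := by linarith
  set w := wX X with hw
  have hwe : (w : ℝ) ≤ Real.exp (L ^ (3 / 4 : ℝ)) := by
    rw [hw]; unfold wX
    exact Nat.floor_le (by positivity)
  have hw1 : 1 ≤ w := by
    rw [hw]; unfold wX
    apply Nat.le_floor
    rw [Nat.cast_one]
    exact Real.one_le_exp (by positivity)
  set S : Set ℕ := {n : ℕ | 1 ≤ n ∧ n ≤ X ∧ (EP c0 w n).card < k ∧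
    ∀ r : ℕ, w < r → ¬ Ex c0 n r} with hS
  have hSfin : S.Finite := (Set.finite_Iic X).subset fun n hn => hn.2.1
  -- the cofactors
  have hgd : ∀ n : ℕ, ∃ g : ℕ, 1 ≤ n → 1 ≤ g ∧ n = g * ∏ p ∈ EP c0 n n, p ∧
      (∀ p : ℕ, ¬ Ex c0 g p) := by
    intro n
    by_cases hn : 1 ≤ n
    · obtain ⟨g, h1, h2, h3, _⟩ := gd c0 n hn
      exact ⟨g, fun _ => ⟨h1, h2, h3⟩⟩
    · exact ⟨0, fun h => absurd h hn⟩
  choose g hg using hgd
  have hprod : ∀ n ∈ S, ((∏ p ∈ EP c0 n n, p : ℕ) : ℝ) ≤ Real.exp (k * L ^ (3 / 4 : ℝ)) := by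
    rintro n ⟨h1n, hnX, hcard, hno⟩
    have hsub : EP c0 n n ⊆ EP c0 w n := by
      intro p hp
      unfold EP at hp ⊢
      rw [Finset.mem_filter, Finset.mem_Icc] at hp ⊢
      refine ⟨⟨hp.1.1, ?_⟩, hp.2⟩
      by_contra hlt
      exact hno p (by omega) hp.2
    have h1 : ∏ p ∈ EP c0 n n, p ≤ w ^ (EP c0 n n).card := by
      apply Finset.prod_le_pow_card
      intro p hp
      have := hsub hp
      unfold EP at this
      rw [Finset.mem_filter, Finset.mem_Icc] at this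
      exact this.1.2
    have h2 : (EP c0 n n).card ≤ k := (Finset.card_le_card hsub).trans hcard.le
    have h3 : ∏ p ∈ EP c0 n n, p ≤ w ^ k := h1.trans (Nat.pow_le_pow_right hw1 h2)
    calc ((∏ p ∈ EP c0 n n, p : ℕ) : ℝ) ≤ ((w ^ k : ℕ) : ℝ) := by exact_mod_cast h3
      _ = (w : ℝ) ^ k := by push_cast; rfl
      _ ≤ (Real.exp (L ^ (3 / 4 : ℝ))) ^ k := pow_le_pow_left₀ (by positivity) hwe k
      _ = Real.exp (k * L ^ (3 / 4 : ℝ)) := by rw [← Real.exp_nat_mul]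
  set S1 : Set ℕ := {n ∈ S | L ^ 6 < (g n : ℝ)} with hS1
  set S2 : Set ℕ := {n ∈ S | (g n : ℝ) ≤ L ^ 6} with hS2
  have hSS : S ⊆ S1 ∪ S2 := by
    intro n hn
    rcases lt_or_ge (L ^ 6) (g n : ℝ) with h | h
    · exact Or.inl ⟨hn, h⟩
    · exact Or.inr ⟨hn, h⟩
  have hS1fin : S1.Finite := hSfin.subset fun n hn => hn.1
  have hS2fin : S2.Finite := hSfin.subset fun n hn => hn.1
  -- S2
  have hc2 : (S2.ncard : ℝ) ≤ L ^ 6 * Real.exp (k * L ^ (3 / 4 : ℝ)) := by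
    have hsub : S2 ⊆ ((Finset.Icc 1 ⌊L ^ 6 * Real.exp (k * L ^ (3 / 4 : ℝ))⌋₊ : Finset ℕ) :
        Set ℕ) := by
      rintro n ⟨hn, hgn⟩
      rw [Finset.mem_coe, Finset.mem_Icc]
      refine ⟨hn.1, ?_⟩
      apply Nat.le_floor
      have h1 := (hg n hn.1).2.1
      have h2 : (n : ℝ) = (g n : ℝ) * ((∏ p ∈ EP c0 n n, p : ℕ) : ℝ) := by exact_mod_cast h1
      rw [h2]
      exact mul_le_mul hgn (hprod n hn) (by positivity) (by positivity)
    have h1 := Set.ncard_le_ncard hsub (Finset.finite_toSet _)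
    rw [Set.ncard_coe_finset, Nat.card_Icc, Nat.add_sub_cancel] at h1
    calc (S2.ncard : ℝ) ≤ (⌊L ^ 6 * Real.exp (k * L ^ (3 / 4 : ℝ))⌋₊ : ℝ) := by
          exact_mod_cast h1
      _ ≤ _ := Nat.floor_le (by positivity)
  -- S1
  set GG : Finset ℕ := (Finset.Icc 1 X).filter
    (fun g => L ^ 6 ≤ (g : ℝ) ∧ ∀ p : ℕ, ¬ Ex c0 g p) with hGG
  have hc1 : (S1.ncard : ℝ) ≤ X * (C * (L ^ 6) ^ (-(1 / 3) : ℝ)) := by
    have hsub : S1 ⊆ ((GG.biUnion (fun g => (Finset.Icc 1 (X / g)).image (fun s => g * s)) :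
        Finset ℕ) : Set ℕ) := by
      rintro n ⟨hn, hgn⟩
      obtain ⟨h1, h2, h3⟩ := hg n hn.1
      rw [Finset.mem_coe, Finset.mem_biUnion]
      have hs0 : 1 ≤ ∏ p ∈ EP c0 n n, p := by
        by_contra h0
        have h00 : ∏ p ∈ EP c0 n n, p = 0 := by omega
        rw [h00, mul_zero] at h2
        have := hn.1
        omega
      refine ⟨g n, ?_, ?_⟩
      · rw [hGG, Finset.mem_filter, Finset.mem_Icc]
        refine ⟨⟨h1, ?_⟩, hgn.le, h3⟩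
        calc g n = g n * 1 := (mul_one _).symm
          _ ≤ g n * ∏ p ∈ EP c0 n n, p := Nat.mul_le_mul_left _ hs0
          _ = n := h2.symm
          _ ≤ X := hn.2.1
      · rw [Finset.mem_image]
        refine ⟨∏ p ∈ EP c0 n n, p, ?_, h2.symm⟩
        rw [Finset.mem_Icc]
        refine ⟨hs0, ?_⟩
        rw [Nat.le_div_iff_mul_le (by omega), mul_comm, ← h2]
        exact hn.2.1
    have h1 := Set.ncard_le_ncard hsub (Finset.finite_toSet _)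
    rw [Set.ncard_coe_finset] at h1
    have h2 : (GG.biUnion (fun g => (Finset.Icc 1 (X / g)).image (fun s => g * s))).card ≤
        ∑ g ∈ GG, X / g := by
      refine Finset.card_biUnion_le.trans (Finset.sum_le_sum fun g _ => ?_)
      refine Finset.card_image_le.trans ?_
      rw [Nat.card_Icc, Nat.add_sub_cancel]
    have h3 : ((∑ g ∈ GG, X / g : ℕ) : ℝ) ≤ X * ∑ g ∈ GG, (1 : ℝ) / g := by
      rw [Finset.mul_sum]
      push_cast
      apply Finset.sum_le_sum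
      intro g _
      rw [mul_one_div]
      exact Nat.cast_div_le
    have h4 := hC (L ^ 6) GG (one_le_pow₀ hL1) (by
      intro g hg
      rw [hGG, Finset.mem_filter] at hg
      exact hg.2)
    calc (S1.ncard : ℝ) ≤ ((∑ g ∈ GG, X / g : ℕ) : ℝ) := by exact_mod_cast h1.trans h2
      _ ≤ X * ∑ g ∈ GG, (1 : ℝ) / g := h3
      _ ≤ X * (C * (L ^ 6) ^ (-(1 / 3) : ℝ)) := mul_le_mul_of_nonneg_left h4 hX0.le
  have hcard : (S.ncard : ℝ) ≤ X * (C * (L ^ 6) ^ (-(1 / 3) : ℝ)) +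
      L ^ 6 * Real.exp (k * L ^ (3 / 4 : ℝ)) := by
    have h1 : S.ncard ≤ S1.ncard + S2.ncard :=
      (Set.ncard_le_ncard hSS (hS1fin.union hS2fin)).trans (Set.ncard_union_le _ _)
    have h2 : (S.ncard : ℝ) ≤ S1.ncard + S2.ncard := by exact_mod_cast h1
    linarith
  exact hcard

theorem e (gs : S_GS) (gd : S_GD) : Pool.Agent.W114.HL.S_E := by
  intro c0 hc0 k
  obtain ⟨C, hC1, hC⟩ := gs c0 hc0
  have hlog : Tendsto (fun X : ℕ => Real.log (X : ℝ)) atTop atTop :=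
    Real.tendsto_log_atTop.comp tendsto_natCast_atTop_atTop
  obtain ⟨X0, hX0⟩ := Filter.eventually_atTop.1 ((hlog.eventually (ev_k k)).and
    (hlog.eventually ev_p))
  have hbase : 0 ≤ Real.log (X0 : ℝ) := Real.log_natCast_nonneg X0
  refine ⟨C + 1 + Real.log (X0 : ℝ) ^ (9 / 8 : ℝ), by positivity, fun X hX => ?_⟩
  have hXr : (3 : ℝ) ≤ X := by exact_mod_cast hX
  have hXpos : (0 : ℝ) < X := by linarith
  have hL1 : 1 ≤ Real.log (X : ℝ) := by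
    rw [Real.le_log_iff_exp_le hXpos]
    exact (Real.exp_one_lt_d9.le.trans (by norm_num)).trans hXr
  have hL0 : 0 < Real.log (X : ℝ) := by linarith
  have hQ : 0 < Real.log (X : ℝ) ^ (-(9 / 8) : ℝ) := by positivity
  rcases Nat.lt_or_ge X X0 with h | h
  · have hsub : {n : ℕ | 1 ≤ n ∧ n ≤ X ∧ (EP c0 (wX X) n).card < k ∧
        ∀ r : ℕ, wX X < r → ¬ Ex c0 n r} ⊆ ((Finset.Icc 1 X : Finset ℕ) : Set ℕ) := by
      rintro n ⟨h1, h2, -⟩
      rw [Finset.mem_coe, Finset.mem_Icc]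
      exact ⟨h1, h2⟩
    have h1 := Set.ncard_le_ncard hsub (Finset.finite_toSet _)
    rw [Set.ncard_coe_finset, Nat.card_Icc, Nat.add_sub_cancel] at h1
    have h2 : ({n : ℕ | 1 ≤ n ∧ n ≤ X ∧ (EP c0 (wX X) n).card < k ∧
        ∀ r : ℕ, wX X < r → ¬ Ex c0 n r}.ncard : ℝ) ≤ X := by exact_mod_cast h1
    refine h2.trans ?_
    have h3 : Real.log (X : ℝ) ^ (9 / 8 : ℝ) ≤ Real.log (X0 : ℝ) ^ (9 / 8 : ℝ) := by
      apply Real.rpow_le_rpow hL0.le _ (by norm_num)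
      exact Real.log_le_log hXpos (by exact_mod_cast h.le)
    have h4 : Real.log (X : ℝ) ^ (9 / 8 : ℝ) * Real.log (X : ℝ) ^ (-(9 / 8) : ℝ) = 1 := by
      rw [← Real.rpow_add hL0]; norm_num
    have h5 : 1 ≤ (C + 1 + Real.log (X0 : ℝ) ^ (9 / 8 : ℝ)) * Real.log (X : ℝ) ^ (-(9 / 8) : ℝ) := by
      calc (1 : ℝ) = Real.log (X : ℝ) ^ (9 / 8 : ℝ) * Real.log (X : ℝ) ^ (-(9 / 8) : ℝ) := h4.symm
        _ ≤ (C + 1 + Real.log (X0 : ℝ) ^ (9 / 8 : ℝ)) * Real.log (X : ℝ) ^ (-(9 / 8) : ℝ) := by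
            apply mul_le_mul_of_nonneg_right _ hQ.le
            linarith
    nlinarith
  · obtain ⟨hk, hp⟩ := hX0 X h
    have hb := bound gd c0 k C (fun G S hG hS => hC G S hG hS) X hL1 (by omega)
    refine hb.trans ?_
    set L := Real.log (X : ℝ) with hL
    have hXe : (X : ℝ) = Real.exp L := by rw [hL, Real.exp_log hXpos]
    have hpow : (L ^ 6) ^ (-(1 / 3) : ℝ) = (L ^ 2)⁻¹ := by
      rw [← Real.rpow_natCast, ← Real.rpow_mul hL0.le, ← Real.rpow_natCast, ← Real.rpow_neg hL0.le]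
      norm_num
    have hle : (L ^ 2)⁻¹ ≤ L ^ (-(9 / 8) : ℝ) := by
      rw [← Real.rpow_natCast, ← Real.rpow_neg hL0.le]
      exact Real.rpow_le_rpow_of_exponent_le hL1 (by norm_num)
    have h1 : L ^ 6 * Real.exp (k * L ^ (3 / 4 : ℝ)) ≤ X * L ^ (-(9 / 8) : ℝ) := by
      have h2 : Real.exp (k * L ^ (3 / 4 : ℝ)) ≤ X * Real.exp (-(L / 2)) := by
        rw [hXe, ← Real.exp_add]
        apply Real.exp_le_exp.2
        linarith
      have h3 : L ^ 6 * Real.exp (-(L / 2)) ≤ (L ^ 2)⁻¹ := by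
        rw [le_inv_comm₀ (by positivity) (by positivity)] 
        rw [le_inv_comm₀ (by positivity) (by positivity)]
        rw [← one_div, le_div_iff₀ (by positivity)]
        calc L ^ 6 * Real.exp (-(L / 2)) * L ^ 2 = L ^ 8 * Real.exp (-(L / 2)) := by ring
          _ ≤ 1 := hp
      calc L ^ 6 * Real.exp (k * L ^ (3 / 4 : ℝ)) ≤ L ^ 6 * (X * Real.exp (-(L / 2))) :=
            mul_le_mul_of_nonneg_left h2 (by positivity)
        _ = X * (L ^ 6 * Real.exp (-(L / 2))) := by ring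
        _ ≤ X * (L ^ 2)⁻¹ := mul_le_mul_of_nonneg_left h3 hXpos.le
        _ ≤ X * L ^ (-(9 / 8) : ℝ) := mul_le_mul_of_nonneg_left hle hXpos.le
    rw [hpow]
    have h6 : X * (C * (L ^ 2)⁻¹) ≤ X * (C * L ^ (-(9 / 8) : ℝ)) :=
      mul_le_mul_of_nonneg_left (mul_le_mul_of_nonneg_left hle (by linarith)) hXpos.le
    have h7 : 0 ≤ Real.log (X0 : ℝ) ^ (9 / 8 : ℝ) * X * L ^ (-(9 / 8) : ℝ) := by positivity
    nlinarith

end Pool.Agent.W563.HL.E
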